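import Pool.Agent.VSR.Defs
import Pool.Agent.VN.NFBasic
/-!
# Centralisers are finitely generated
-/
namespace Pool.Agent.VSR
open Pool.Agent.VS Pool.Agent.VN

variable {G : Type} [Group G]

/-- Steps of length at most `R` inside a set `P`. -/
def CStep (F : Geo G) (P : G → Prop) (R : ℕ) (x y : G) : Prop :=
  P x ∧ P y ∧ F.l (x⁻¹ * y) ≤ R ∧ F.l (y⁻¹ * x) ≤ R

theorem cent_l_pow (F : Geo G) (w : G) (n : ℕ) : F.l (w ^ n) ≤ n * F.l w := by
  induction n with
  | zero => simp [F.l_one]
  | succ n ih =>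
    rw [pow_succ]
    have := F.l_mul (w ^ n) w
    have e : (n + 1) * F.l w = n * F.l w + F.l w := by ring
    omega

theorem cent_tau (F : Geo G) (w : G) : Tau F w (F.l w + 1) := by
  intro B
  refine ⟨B, ?_⟩
  have h1 := cent_l_pow F w (2 ^ B)
  have h2 : B < 2 ^ B := Nat.lt_two_pow_self
  have e : 2 ^ B * (F.l w + 1) = 2 ^ B * F.l w + 2 ^ B := by ring
  omega

open Classical in
/-- The sum of the coefficients of the one point sets contained in `P`. -/
noncomputable def csum (P : G → Prop) : FCh G →ₗ[ZMod 2] ZMod 2 :=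
  Finsupp.linearCombination (ZMod 2)
    (fun σ : Finset G => if ∃ v, P v ∧ σ = {v} then (1 : ZMod 2) else 0)

theorem csum_single (P : G → Prop) (v : G) :
    csum P (Finsupp.single {v} (1 : ZMod 2)) = (by classical exact if P v then 1 else 0) := by
  classical
  simp only [csum, Finsupp.linearCombination_single, smul_eq_mul, one_mul]
  by_cases h : P v
  · rw [if_pos h, if_pos ⟨v, h, rfl⟩]
  · rw [if_neg h, if_neg]
    rintro ⟨u, hu, he⟩
    exact h (by rw [Finset.singleton_injective he]; exact hu)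

theorem csum_fbd (P : G → Prop) (Q : Finset G → Prop)
    (hQ : ∀ σ, Q σ → ∀ u ∈ σ, ∀ v ∈ σ, P u → P v)
    (e : FCh G) (he : e ∈ On (fun σ : Finset G => σ.card = 2 ∧ Q σ)) :
    csum P (fbd e) = 0 := by
  classical
  have key : ∀ σ : Finset G, σ.card = 2 → Q σ → csum P (fbd (Finsupp.single σ 1)) = 0 := by
    intro σ hσ hq
    obtain ⟨u, v, huv, rfl⟩ := Finset.card_eq_two.1 hσ
    have h1 : fbd (Finsupp.single ({u, v} : Finset G) (1 : ZMod 2)) =
        Finsupp.single {v} 1 + Finsupp.single {u} 1 := by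
      simp only [fbd, Finsupp.linearCombination_single, one_smul]
      rw [Finset.sum_pair huv]
      congr 2
      · ext x
        simp only [Finset.mem_erase, Finset.mem_insert, Finset.mem_singleton]
        constructor
        · rintro ⟨h2, h3⟩
          exact h3.resolve_left h2
        · rintro rfl
          exact ⟨huv.symm, Or.inr rfl⟩
      · ext x
        simp only [Finset.mem_erase, Finset.mem_insert, Finset.mem_singleton]
        constructor
        · rintro ⟨h2, h3⟩
          exact h3.resolve_right h2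
        · rintro rfl
          exact ⟨huv, Or.inl rfl⟩
    rw [h1, map_add, csum_single, csum_single]
    have h2 : P u ↔ P v := ⟨hQ _ hq u (by simp) v (by simp), hQ _ hq v (by simp) u (by simp)⟩
    by_cases h : P u
    · rw [if_pos (h2.1 h), if_pos h]; decide
    · rw [if_neg h, if_neg (fun h' => h (h2.2 h'))]; decide
  have h3 : ∀ σ ∈ e.support, csum P (fbd (Finsupp.single σ (e σ))) = 0 := by
    intro σ hσ
    have h4 := he (by exact_mod_cast hσ)
    have h5 : (Finsupp.single σ (e σ) : FCh G) = e σ • Finsupp.single σ 1 := by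
      rw [Finsupp.smul_single, smul_eq_mul, mul_one]
    rw [h5, map_smul, map_smul, key σ h4.1 h4.2, smul_zero]
  conv_lhs => rw [← e.sum_single]
  rw [Finsupp.sum, map_sum, map_sum]
  exact Finset.sum_eq_zero h3

theorem fil_conn (F : Geo G) {R R' C : ℕ} (hF : Fil F 1 R R' C) (w : G) (L : ℕ)
    (hT : Tau F w L) (x y : G) (hx : InY F w L x) (hy : InY F w L y) :
    Relation.ReflTransGen (CStep F (InY F w (L + C)) R') x y := by
  classical
  by_contra hne
  have hxy : x ≠ y := by
    rintro rfl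
    exact hne Relation.ReflTransGen.refl
  have hc : (Finsupp.single {x} (1 : ZMod 2) + Finsupp.single {y} 1 : FCh G) ∈
      On (fun σ : Finset G => σ.card = 1 ∧ Sm F R σ ∧ ∀ x ∈ σ, InY F w L x) := by
    apply Submodule.add_mem
    · apply Finsupp.single_mem_supported
      refine ⟨Finset.card_singleton x, ?_, ?_⟩
      · intro a ha b hb
        rw [Finset.mem_singleton] at ha hb
        rw [ha, hb, inv_mul_cancel, F.l_one]
        exact Nat.zero_le _
      · intro a ha
        rw [Finset.mem_singleton] at ha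
        rw [ha]
        exact hx
    · apply Finsupp.single_mem_supported
      refine ⟨Finset.card_singleton y, ?_, ?_⟩
      · intro a ha b hb
        rw [Finset.mem_singleton] at ha hb
        rw [ha, hb, inv_mul_cancel, F.l_one]
        exact Nat.zero_le _
      · intro a ha
        rw [Finset.mem_singleton] at ha
        rw [ha]
        exact hy
  have hd : ∀ v : G, fbd (Finsupp.single ({v} : Finset G) (1 : ZMod 2)) = Finsupp.single ∅ 1 := by
    intro v
    simp only [fbd, Finsupp.linearCombination_single, one_smul]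
    rw [Finset.sum_singleton, Finset.erase_singleton]
  have h0 : fbd (Finsupp.single {x} (1 : ZMod 2) + Finsupp.single {y} 1 : FCh G) = 0 := by
    rw [map_add, hd, hd, ← Finsupp.single_add]
    have : (1 : ZMod 2) + 1 = 0 := by decide
    rw [this, Finsupp.single_zero]
  obtain ⟨e, he, hee⟩ := hF w L hT _ hc h0
  let P : G → Prop := fun v => Relation.ReflTransGen (CStep F (InY F w (L + C)) R') x v
  have h1 : csum P (fbd e) = 0 := by
    apply csum_fbd P (fun σ => Sm F R' σ ∧ ∀ x ∈ σ, InY F w (L + C) x) _ e he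
    rintro σ ⟨hs, hin⟩ u hu v hv hPu
    exact hPu.tail ⟨hin u hu, hin v hv, hs u hu v hv, hs v hv u hu⟩
  rw [hee, map_add, csum_single, csum_single, if_pos Relation.ReflTransGen.refl,
    if_neg hne] at h1
  exact absurd h1 (by decide)

/-- Centralisers are finitely generated. -/
theorem cent_fg0 (F : Geo G) (hF : ∃ R' C, Fil F 1 0 R' C) (w : G) :
    (Subgroup.centralizer ({w} : Set G)).FG := by
  classical
  obtain ⟨R', C, hFil⟩ := hF
  set L := F.l w + 1 with hL
  have hT : Tau F w L := cent_tau F w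
  set Y : G → Prop := InY F w (L + C) with hY
  have hconn := fun x y hx hy => fil_conn F hFil w L hT x y hx hy
  -- representatives
  have hrep : ∃ ρ : G → G, ∀ x : G, (ρ (x⁻¹ * w * x))⁻¹ * w * ρ (x⁻¹ * w * x) = x⁻¹ * w * x := by
    refine ⟨fun v => if h : ∃ x : G, x⁻¹ * w * x = v then h.choose else 1, ?_⟩
    intro x
    have h : ∃ z : G, z⁻¹ * w * z = x⁻¹ * w * x := ⟨x, rfl⟩
    simp only [dif_pos h]
    exact h.choose_spec
  obtain ⟨ρ, hρ⟩ := hrep
  let cc : G → G := fun x => x * (ρ (x⁻¹ * w * x))⁻¹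
  have hcc : ∀ x, cc x ∈ Subgroup.centralizer ({w} : Set G) := by
    intro x
    rw [Subgroup.mem_centralizer_singleton_iff]
    show x * (ρ (x⁻¹ * w * x))⁻¹ * w = w * (x * (ρ (x⁻¹ * w * x))⁻¹)
    have h1 := hρ x
    generalize ρ (x⁻¹ * w * x) = r at h1 ⊢
    calc x * r⁻¹ * w = x * (r⁻¹ * w * r) * r⁻¹ := by group
      _ = w * (x * r⁻¹) := by rw [h1]; group
  -- the finite generating set
  have hball := F.finite_ball (L + C)
  have hballR := F.finite_ball R'
  let S : Set G := (fun p : G × G × G => ρ p.1 * p.2.1 * (ρ p.2.2)⁻¹) ''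
    ({g | F.l g ≤ L + C} ×ˢ {g | F.l g ≤ R'} ×ˢ {g | F.l g ≤ L + C})
  have hSfin : S.Finite := ((hball.prod (hballR.prod hball)).image _)
  let S' : Set G := (S ∪ {cc 1}) ∩ (Subgroup.centralizer ({w} : Set G) : Set G)
  have hS'fin : S'.Finite := (hSfin.union (Set.finite_singleton _)).inter_of_left _
  rw [Subgroup.fg_iff]
  refine ⟨S', ?_, hS'fin⟩
  apply le_antisymm
  · rw [Subgroup.closure_le]
    exact Set.inter_subset_right
  · intro z hz
    have h1in : InY F w L 1 := by
      show F.l (1⁻¹ * w * 1) ≤ L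
      rw [inv_one, one_mul, mul_one]
      omega
    have hzw : z⁻¹ * w * z = w := by
      have := Subgroup.mem_centralizer_singleton_iff.1 hz
      rw [mul_assoc, ← this, inv_mul_cancel_left]
    have hzin : InY F w L z := by
      show F.l (z⁻¹ * w * z) ≤ L
      rw [hzw]
      omega
    have hch := hconn 1 z h1in hzin
    have hcl : ∀ y, Relation.ReflTransGen (CStep F Y R') 1 y →
        cc y ∈ Subgroup.closure S' := by
      intro y hy
      induction hy with
      | refl => exact Subgroup.subset_closure ⟨Or.inr rfl, hcc 1⟩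
      | @tail b c _ hbc ih =>
        obtain ⟨hb, hc, hbc1, _⟩ := hbc
        have e : cc c = cc b * (ρ (b⁻¹ * w * b) * (b⁻¹ * c) * (ρ (c⁻¹ * w * c))⁻¹) := by
          show c * (ρ (c⁻¹ * w * c))⁻¹ = b * (ρ (b⁻¹ * w * b))⁻¹ *
            (ρ (b⁻¹ * w * b) * (b⁻¹ * c) * (ρ (c⁻¹ * w * c))⁻¹)
          group
        rw [e]
        refine Subgroup.mul_mem _ ih (Subgroup.subset_closure ⟨Or.inl ?_, ?_⟩)
        · exact ⟨(b⁻¹ * w * b, b⁻¹ * c, c⁻¹ * w * c), ⟨hb, hbc1, hc⟩, rfl⟩
        · have e2 : ρ (b⁻¹ * w * b) * (b⁻¹ * c) * (ρ (c⁻¹ * w * c))⁻¹ = (cc b)⁻¹ * cc c := by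
            rw [e]; group
          rw [e2]
          exact Subgroup.mul_mem _ (Subgroup.inv_mem _ (hcc b)) (hcc c)
    have hz1 := hcl z hch
    have h11 := hcl 1 Relation.ReflTransGen.refl
    have e3 : z = cc z * (cc 1)⁻¹ := by
      show z = z * (ρ (z⁻¹ * w * z))⁻¹ * (1 * (ρ (1⁻¹ * w * 1))⁻¹)⁻¹
      rw [hzw, inv_one, one_mul, mul_one]
      group
    rw [e3]
    exact Subgroup.mul_mem _ hz1 (Subgroup.inv_mem _ h11)

theorem cent_fg (F : Geo G) (hF : ∀ R, ∃ R' C, Fil F 1 R R' C) (w : G) :
    (Subgroup.centralizer ({w} : Set G)).FG := cent_fg0 F (hF 0) w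

end Pool.Agent.VSR
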