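import Pool.Agent.VS.Fin
import Pool.Agent.VS.Hty
import Pool.Agent.VSR.Fib
import Pool.Agent.VS.SAlg
import Pool.Agent.VSR.Tau
import Pool.Agent.VN.NFBasic
/-!
# Coarse Smith theory: the Smith step
-/
namespace Pool.Agent.VSR
open Pool.Agent.VS Pool.Agent.VN

section STEP
variable {G : Type} [Group G]

private theorem st_tri (F : Geo G) (x y z : G) :
    F.l (x⁻¹ * z) ≤ F.l (x⁻¹ * y) + F.l (y⁻¹ * z) := by
  have h := F.l_mul (x⁻¹ * y) (y⁻¹ * z)
  have h2 : x⁻¹ * y * (y⁻¹ * z) = x⁻¹ * z := by group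
  rwa [h2] at h

private theorem st_tri3 (F : Geo G) (w a x y b : G) :
    F.l (a⁻¹ * w * b) ≤ F.l (a⁻¹ * x) + F.l (x⁻¹ * w * y) + F.l (y⁻¹ * b) := by
  have h := F.l_mul (a⁻¹ * x * (x⁻¹ * w * y)) (y⁻¹ * b)
  have h2 : a⁻¹ * x * (x⁻¹ * w * y) * (y⁻¹ * b) = a⁻¹ * w * b := by group
  rw [h2] at h
  have h3 := F.l_mul (a⁻¹ * x) (x⁻¹ * w * y)
  omega

private theorem st_sw_sm2 (F : Geo G) {R : ℕ} {σ τ : Finset (G × G)} (h : Sm2 F R σ)
    (hτ : ∀ y, y ∈ τ → Prod.swap y ∈ σ) : Sm2 F R τ := by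
  intro p hp q hq
  have := h _ (hτ p hp) _ (hτ q hq)
  exact ⟨this.2, this.1⟩

private theorem st_sw_inX (F : Geo G) {w : G} {L : ℕ} {p : G × G}
    (h : InX F w L (Prod.swap p)) : InX F w L p := by
  unfold InX at h ⊢
  have : F.l (p.2⁻¹ * w * p.1) + F.l (p.1⁻¹ * w * p.2) ≤ L := h
  omega

/-- The swap preserves the chains of small simplices in `X_L(w)`. -/
private theorem st_sw_on (F : Geo G) {w : G} {j R L : ℕ} {c : FCh (G × G)}
    (hc : c ∈ On (fun τ : Finset (G × G) => τ.card = j ∧ Sm2 F R τ ∧ ∀ p ∈ τ, InX F w L p)) :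
    fmap Prod.swap c ∈
      On (fun τ : Finset (G × G) => τ.card = j ∧ Sm2 F R τ ∧ ∀ p ∈ τ, InX F w L p) := by
  refine fmap_on Prod.swap ?_ hc
  intro σ τ hσ hcard hmem
  have hm : ∀ y, y ∈ τ → Prod.swap y ∈ σ := by
    intro y hy
    obtain ⟨x, hx, rfl⟩ := (hmem y).1 hy
    rwa [Prod.swap_swap]
  refine ⟨hcard.trans hσ.1, st_sw_sm2 F hσ.2.1 hm, ?_⟩
  intro p hp
  exact st_sw_inX F (hσ.2.2 _ (hm p hp))

private theorem st_sw_sw (c : FCh (G × G)) : fmap Prod.swap (fmap Prod.swap c) = c := by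
  rw [fmap_fmap]
  have : (fun x : G × G => Prod.swap (Prod.swap x)) = fun x => x := by
    funext x
    exact Prod.swap_swap x
  rw [this, fmap_id]

/-- First projection. -/
private theorem st_fst_on (F : Geo G) {w : G} {j R L : ℕ} {c : FCh (G × G)}
    (hc : c ∈ On (fun τ : Finset (G × G) => τ.card = j ∧ Sm2 F R τ ∧ ∀ p ∈ τ, InX F w L p)) :
    fmap Prod.fst c ∈
      On (fun σ : Finset G => σ.card = j ∧ Sm F R σ ∧ ∀ x ∈ σ, InY F (w * w) L x) := by
  refine fmap_on Prod.fst ?_ hc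
  intro σ τ hσ hcard hmem
  refine ⟨hcard.trans hσ.1, ?_, ?_⟩
  · intro x hx y hy
    obtain ⟨p, hp, rfl⟩ := (hmem x).1 hx
    obtain ⟨q, hq, rfl⟩ := (hmem y).1 hy
    exact (hσ.2.1 p hp q hq).1
  · intro x hx
    obtain ⟨p, hp, rfl⟩ := (hmem x).1 hx
    have h1 := hσ.2.2 p hp
    unfold InX at h1
    unfold InY
    have h2 := F.l_mul (p.1⁻¹ * w * p.2) (p.2⁻¹ * w * p.1)
    have h3 : p.1⁻¹ * w * p.2 * (p.2⁻¹ * w * p.1) = p.1⁻¹ * (w * w) * p.1 := by group
    rw [h3] at h2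
    omega

private theorem st_mono (F : Geo G) {w : G} {j R R' L L' : ℕ} (hR : R ≤ R') (hL : L ≤ L')
    {c : FCh (G × G)}
    (hc : c ∈ On (fun τ : Finset (G × G) => τ.card = j ∧ Sm2 F R τ ∧ ∀ p ∈ τ, InX F w L p)) :
    c ∈ On (fun τ : Finset (G × G) => τ.card = j ∧ Sm2 F R' τ ∧ ∀ p ∈ τ, InX F w L' p) := by
  refine on_mono ?_ hc
  intro σ hσ
  refine ⟨hσ.1, ?_, ?_⟩
  · intro p hp q hq
    exact ⟨(hσ.2.1 p hp q hq).1.trans hR, (hσ.2.1 p hp q hq).2.trans hR⟩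
  · intro p hp
    exact le_trans (hσ.2.2 p hp) hL

/-- The tower of chains. -/
private theorem st_tower (F : Geo G) (k : ℕ)
    (hfil : ∀ j, k < j → ∀ R, ∃ R' C, Fil F j R R' C) (R R1 : ℕ) :
    ∀ n : ℕ, ∃ R2 C : ℕ, ∀ (w : G) (L a : ℕ), Tau F w L →
      ∀ z ∈ On (fun τ : Finset (G × G) => τ.card = k ∧ Sm2 F R τ ∧ ∀ p ∈ τ, InX F w (2 * L) p),
      fbd z = 0 → fmap Prod.swap z = z →
      (∃ e ∈ On (fun σ : Finset G => σ.card = k + 1 ∧ Sm F R1 σ ∧
        ∀ x ∈ σ, InY F (w * w) (2 * L + a) x), fbd e = fmap Prod.fst z) →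
      ∃ b : ℕ → FCh (G × G),
        (∀ i, k < i → i ≤ k + 1 + n → b i ∈ On (fun τ : Finset (G × G) => τ.card = i ∧
          Sm2 F R2 τ ∧ ∀ p ∈ τ, InX F w (2 * L + a + C) p)) ∧
        fbd (b (k + 1)) = z ∧
        ∀ i, k < i → i < k + 1 + n → fbd (b (i + 1)) = b i + fmap Prod.swap (b i) := by
  intro n
  induction n with
  | zero =>
    obtain ⟨R', C, h⟩ := fib_fill F k R R1
    refine ⟨R', C, ?_⟩
    intro w L a _ z hz hz0 _ he
    obtain ⟨e, he1, he2⟩ := he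
    obtain ⟨b', hb1, hb2⟩ := h w (2 * L) (2 * L + a) (Nat.le_add_right _ _) k le_rfl z hz hz0
      e he1 he2
    refine ⟨fun _ => b', ?_, hb2, ?_⟩
    · intro i h1 h2
      have : i = k + 1 := by omega
      subst this
      exact hb1
    · intro i h1 h2
      omega
  | succ n ih =>
    obtain ⟨Rj, Cj, h⟩ := ih
    obtain ⟨R', C', hF⟩ := hfil (k + 1 + n) (by omega) Rj
    obtain ⟨R'', C'', hB⟩ := fib_fill F (k + 1 + n) Rj R'
    refine ⟨max Rj R'', Cj + C' + C'', ?_⟩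
    intro w L a hT z hz hz0 hzT he
    obtain ⟨b, hb1, hb2, hb3⟩ := h w L a hT z hz hz0 hzT he
    set j := k + 1 + n with hj
    have hbj := hb1 j (by omega) le_rfl
    set c : FCh (G × G) := b j + fmap Prod.swap (b j) with hc
    have hc1 : c ∈ On (fun τ : Finset (G × G) => τ.card = j ∧ Sm2 F Rj τ ∧
        ∀ p ∈ τ, InX F w (2 * L + a + Cj) p) := Submodule.add_mem _ hbj (st_sw_on F hbj)
    have hc2 : fbd c = 0 := by
      have h1 : fbd c = fbd (b j) + fmap Prod.swap (fbd (b j)) := by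
        rw [hc, map_add, fbd_fmap]
      rw [h1]
      by_cases hn : n = 0
      · have : j = k + 1 := by omega
        rw [this, hb2, hzT]
        exact fadd_self z
      · obtain ⟨i, hi⟩ : ∃ i, j = i + 1 := ⟨k + n, by omega⟩
        rw [hi, hb3 i (by omega) (by omega), map_add, st_sw_sw]
        have : b i + fmap Prod.swap (b i) + (fmap Prod.swap (b i) + b i) =
          (b i + b i) + (fmap Prod.swap (b i) + fmap Prod.swap (b i)) := by abel
        rw [this, fadd_self, fadd_self, add_zero]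
    obtain ⟨e, he1, he2⟩ := hF (w * w) (2 * L + a + Cj) (tau_mono F (by omega) (tau_sq F hT))
      (fmap Prod.fst c) (st_fst_on F hc1) (by rw [fbd_fmap, hc2, map_zero])
    obtain ⟨b', hb'1, hb'2⟩ := hB w (2 * L + a + Cj) (2 * L + a + Cj + C') (by omega) j le_rfl c
      hc1 hc2 e he1 he2
    refine ⟨fun i => if i = j + 1 then b' else b i, ?_, ?_, ?_⟩
    · intro i h1 h2
      by_cases h3 : i = j + 1
      · simp only [h3, if_true]
        exact st_mono F (le_max_right _ _) (by omega) hb'1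
      · simp only [h3, if_false]
        exact st_mono F (le_max_left _ _) (by omega) (hb1 i h1 (by omega))
    · have h3 : k + 1 ≠ j + 1 := by omega
      simp only [h3, if_false]
      exact hb2
    · intro i h1 h2
      by_cases h3 : i = j
      · have h4 : i ≠ j + 1 := by omega
        have h5 : i + 1 = j + 1 := by omega
        simp only [h4, h5, if_false, if_true]
        rw [hb'2, hc, h3]
      · have h4 : i ≠ j + 1 := by omega
        have h5 : i + 1 ≠ j + 1 := by omega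
        simp only [h4, h5, if_false]
        exact hb3 i h1 (by omega)

open Classical in
/-- A product of maps with few values on small sets is not injective on a large set. -/
private theorem st_not_inj (F : Geo G) {Dm R : ℕ} (φ : G → G)
    (hφ : ∀ σ : Finset G, Sm F R σ → (φ '' (σ : Set G)).ncard ≤ Dm + 1)
    (τ : Finset (G × G)) (hτ : Sm2 F R τ) (hcard : (Dm + 1) * (Dm + 1) < τ.card) :
    ¬ Set.InjOn (fun p : G × G => (φ p.1, φ p.2)) (τ : Set (G × G)) := by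
  intro hinj
  set τ1 : Finset G := τ.image Prod.fst with h1
  set τ2 : Finset G := τ.image Prod.snd with h2
  have s1 : Sm F R τ1 := by
    intro x hx y hy
    rw [h1, Finset.mem_image] at hx hy
    obtain ⟨p, hp, rfl⟩ := hx
    obtain ⟨q, hq, rfl⟩ := hy
    exact (hτ p hp q hq).1
  have s2 : Sm F R τ2 := by
    intro x hx y hy
    rw [h2, Finset.mem_image] at hx hy
    obtain ⟨p, hp, rfl⟩ := hx
    obtain ⟨q, hq, rfl⟩ := hy
    exact (hτ p hp q hq).2
  have c1 := hφ τ1 s1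
  have c2 := hφ τ2 s2
  have e1 : (τ1.image φ).card ≤ Dm + 1 := by
    rw [← Finset.coe_image, Set.ncard_coe_finset] at c1
    exact c1
  have e2 : (τ2.image φ).card ≤ Dm + 1 := by
    rw [← Finset.coe_image, Set.ncard_coe_finset] at c2
    exact c2
  have h3 : (τ.image (fun p : G × G => (φ p.1, φ p.2))).card = τ.card :=
    Finset.card_image_of_injOn hinj
  have h4 : τ.image (fun p : G × G => (φ p.1, φ p.2)) ⊆ (τ1.image φ) ×ˢ (τ2.image φ) := by
    intro q hq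
    rw [Finset.mem_image] at hq
    obtain ⟨p, hp, rfl⟩ := hq
    rw [Finset.mem_product]
    exact ⟨Finset.mem_image_of_mem _ (Finset.mem_image_of_mem _ hp),
      Finset.mem_image_of_mem _ (Finset.mem_image_of_mem _ hp)⟩
  have h5 := Finset.card_le_card h4
  rw [h3, Finset.card_product] at h5
  have h6 : (τ1.image φ).card * (τ2.image φ).card ≤ (Dm + 1) * (Dm + 1) :=
    Nat.mul_le_mul e1 e2
  omega

/-- The Smith step. -/
theorem smith_step (F : Geo G) {Dm : ℕ} (hA : Asd F Dm) (k : ℕ)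
    (hk : k ≤ (Dm + 1) * (Dm + 1))
    (hfil : ∀ j, k < j → ∀ R, ∃ R' C, Fil F j R R' C) (R R1 : ℕ) :
    ∃ R2 C : ℕ, ∀ (w : G) (L a : ℕ), Tau F w L →
      ∀ c ∈ On (fun σ : Finset G => σ.card = k ∧ Sm F R σ ∧ ∀ x ∈ σ, InY F w L x), fbd c = 0 →
      (∃ e ∈ On (fun σ : Finset G => σ.card = k + 1 ∧ Sm F R1 σ ∧
        ∀ x ∈ σ, InY F (w * w) (2 * L + a) x), fbd e = c) →
      ∃ e ∈ On (fun σ : Finset G => σ.card = k + 1 ∧ Sm F R2 σ ∧
        ∀ x ∈ σ, InY F w (L + a / 2 + C) x), fbd e = c := by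
  classical
  obtain ⟨n, hn⟩ : ∃ n, k + 1 + n = (Dm + 1) * (Dm + 1) + 1 :=
    ⟨(Dm + 1) * (Dm + 1) - k, by omega⟩
  obtain ⟨Rm, Cm, hTow⟩ := st_tower F k hfil R R1 n
  obtain ⟨B, φ, hφB, hφ⟩ := hA Rm
  obtain ⟨H, hH1, hH2⟩ := exists_hty (fun x : G => x) φ
  set Rt := Rm + 2 * B with hRt
  set Ct := Cm + 4 * B with hCt
  refine ⟨2 * Rt + R + 2 * B, Ct + Rt + 1 + 2 * B, ?_⟩
  intro w L a hT c hc hc0 he
  set δ : G → G × G := fun x => (x, x) with hδ
  set Φ : G × G → G × G := fun p => (φ p.1, φ p.2) with hΦ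
  set z : FCh (G × G) := fmap δ c with hz
  have hz1 : z ∈ On (fun τ : Finset (G × G) => τ.card = k ∧ Sm2 F R τ ∧
      ∀ p ∈ τ, InX F w (2 * L) p) := by
    refine fmap_on δ ?_ hc
    intro σ τ hσ hcard hmem
    refine ⟨hcard.trans hσ.1, ?_, ?_⟩
    · intro p hp q hq
      obtain ⟨x, hx, rfl⟩ := (hmem p).1 hp
      obtain ⟨y, hy, rfl⟩ := (hmem q).1 hq
      exact ⟨hσ.2.1 x hx y hy, hσ.2.1 x hx y hy⟩
    · intro p hp
      obtain ⟨x, hx, rfl⟩ := (hmem p).1 hp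
      have h1 : F.l (x⁻¹ * w * x) ≤ L := hσ.2.2 x hx
      show F.l (x⁻¹ * w * x) + F.l (x⁻¹ * w * x) ≤ 2 * L
      omega
  have hz2 : fbd z = 0 := by rw [hz, fbd_fmap, hc0, map_zero]
  have hz3 : fmap Prod.swap z = z := by
    rw [hz, fmap_fmap]
    rfl
  have hz4 : fmap Prod.fst z = c := by
    rw [hz, fmap_fmap]
    exact fmap_id c
  obtain ⟨b, hb1, hb2, hb3⟩ := hTow w L a hT z hz1 hz2 hz3 (by
    obtain ⟨e, he1, he2⟩ := he
    exact ⟨e, he1, by rw [he2, hz4]⟩)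
  rw [hn] at hb1 hb3
  set M := (Dm + 1) * (Dm + 1) + 1 with hM
  -- the pushed chains
  have hΦsw : ∀ x : FCh (G × G), fmap Φ (fmap Prod.swap x) = fmap Prod.swap (fmap Φ x) := by
    intro x
    rw [fmap_fmap, fmap_fmap]
    rfl
  have hpush : ∀ i, k < i → i ≤ M → fmap Φ (b i) ∈ On (fun τ : Finset (G × G) => τ.card = i ∧
      (Sm2 F Rt τ ∧ ∀ p ∈ τ, InX F w (2 * L + a + Ct) p)) := by
    intro i h1 h2
    refine fmap_on Φ ?_ (hb1 i h1 h2)
    intro σ τ hσ hcard hmem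
    refine ⟨hcard.trans hσ.1, ?_, ?_⟩
    · intro p hp q hq
      obtain ⟨x, hx, rfl⟩ := (hmem p).1 hp
      obtain ⟨y, hy, rfl⟩ := (hmem q).1 hq
      have g1 := hσ.2.1 x hx y hy
      constructor
      · show F.l ((φ x.1)⁻¹ * φ y.1) ≤ Rt
        have g2 := st_tri F (φ x.1) x.1 (φ y.1)
        have g3 := st_tri F x.1 y.1 (φ y.1)
        have g4 := (hφB x.1).2
        have g5 := (hφB y.1).1
        omega
      · show F.l ((φ x.2)⁻¹ * φ y.2) ≤ Rt
        have g2 := st_tri F (φ x.2) x.2 (φ y.2)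
        have g3 := st_tri F x.2 y.2 (φ y.2)
        have g4 := (hφB x.2).2
        have g5 := (hφB y.2).1
        omega
    · intro p hp
      obtain ⟨x, hx, rfl⟩ := (hmem p).1 hp
      have g1 : F.l (x.1⁻¹ * w * x.2) + F.l (x.2⁻¹ * w * x.1) ≤ 2 * L + a + Cm := hσ.2.2 x hx
      show F.l ((φ x.1)⁻¹ * w * φ x.2) + F.l ((φ x.2)⁻¹ * w * φ x.1) ≤ 2 * L + a + Ct
      have g2 := st_tri3 F w (φ x.1) x.1 x.2 (φ x.2)
      have g3 := st_tri3 F w (φ x.2) x.2 x.1 (φ x.1)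
      have g4 := hφB x.1
      have g5 := hφB x.2
      omega
  obtain ⟨ν, h, hν, hh, hνh⟩ := smith_alg (V := G × G) Prod.swap Prod.swap_swap
    (fun τ => Sm2 F Rt τ ∧ ∀ p ∈ τ, InX F w (2 * L + a + Ct) p)
    (fun τ => ∀ p ∈ τ, F.l (p.1⁻¹ * p.2) ≤ Rt ∧ F.l (p.2⁻¹ * p.1) ≤ Rt)
    (by
      intro σ τ hσ hsub
      exact ⟨fun p hp q hq => hσ.1 p (hsub hp) q (hsub hq), fun p hp => hσ.2 p (hsub hp)⟩)
    (by
      intro σ τ hσ hsub p hp
      exact hσ p (hsub hp))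
    (by
      intro σ τ hσ hm
      have hm' : ∀ y, y ∈ τ → Prod.swap y ∈ σ := fun y hy => (hm y).1 hy
      exact ⟨st_sw_sm2 F hσ.1 hm', fun p hp => st_sw_inX F (hσ.2 _ (hm' p hp))⟩)
    (by
      intro σ τ hσ hm p hp
      have := hσ _ ((hm p).1 hp)
      exact ⟨this.2, this.1⟩)
    (by
      intro σ hσ hN hinv
      apply hN
      intro p hp
      have h1 := hσ.1 p hp _ ((hinv p).1 hp)
      have h2 := hσ.1 _ ((hinv p).1 hp) p hp
      exact ⟨h1.1, h2.1⟩)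
    k M (by omega) (fun i => fmap Φ (b i)) hpush
    (by
      intro j h1 h2
      show fbd (fmap Φ (b (j + 1))) = fmap Φ (b j) + fmap Prod.swap (fmap Φ (b j))
      rw [fbd_fmap, hb3 j h1 h2, map_add, hΦsw])
    (by
      refine fmap_eq_zero Φ ?_ (hb1 M (by omega) le_rfl)
      intro σ hσ
      exact st_not_inj F φ hφ σ hσ.2.1 (by omega))
    (by
      show fbd (fmap Φ (b (k + 1))) ∈ _
      rw [fbd_fmap, hb2, hz, fmap_fmap]
      refine fmap_on _ ?_ hc
      intro σ τ hσ hcard hmem p hp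
      obtain ⟨x, hx, rfl⟩ := (hmem p).1 hp
      show F.l ((φ x)⁻¹ * φ x) ≤ Rt ∧ F.l ((φ x)⁻¹ * φ x) ≤ Rt
      rw [inv_mul_cancel, F.l_one]
      exact ⟨Nat.zero_le _, Nat.zero_le _⟩)
  -- the symmetric retraction
  obtain ⟨lo⟩ : Nonempty (LinearOrder G) := ⟨linearOrderOfSTO (WellOrderingRel (α := G))⟩
  set μ : G × G → G := fun p => if lo.lt p.1 p.2 then p.1 else p.2 with hμ
  have hμsw : ∀ p : G × G, μ (Prod.swap p) = μ p := by
    intro p
    show (if lo.lt p.2 p.1 then p.2 else p.1) = if lo.lt p.1 p.2 then p.1 else p.2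
    by_cases h1 : lo.lt p.1 p.2
    · have h2 : ¬ lo.lt p.2 p.1 := fun h3 => lt_asymm h1 h3
      rw [if_pos h1, if_neg h2]
    · rw [if_neg h1]
      by_cases h2 : lo.lt p.2 p.1
      · rw [if_pos h2]
      · rw [if_neg h2]
        exact le_antisymm (not_lt.1 h2) (not_lt.1 h1)
  have hμ2 : ∀ p : G × G, μ p = p.1 ∨ μ p = p.2 := by
    intro p
    show (if lo.lt p.1 p.2 then p.1 else p.2) = p.1 ∨ (if lo.lt p.1 p.2 then p.1 else p.2) = p.2
    by_cases h1 : lo.lt p.1 p.2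
    · exact Or.inl (if_pos h1)
    · exact Or.inr (if_neg h1)
  refine ⟨fmap μ ν + H c, Submodule.add_mem _ ?_ ?_, ?_⟩
  · refine fmap_on μ ?_ hν
    intro σ τ hσ hcard hmem
    obtain ⟨s1, ⟨s2, s3⟩, s4⟩ := hσ
    refine ⟨hcard.trans s1, ?_, ?_⟩
    · intro x hx y hy
      obtain ⟨p, hp, rfl⟩ := (hmem x).1 hx
      obtain ⟨q, hq, rfl⟩ := (hmem y).1 hy
      have g1 := s2 p hp q hq
      have g2 := s4 p hp
      have g3 := s4 q hq
      have g4 := st_tri F p.1 q.1 q.2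
      have g5 := st_tri F p.2 q.2 q.1
      rcases hμ2 p with e1 | e1 <;> rcases hμ2 q with e2 | e2 <;> rw [e1, e2] <;> omega
    · intro x hx
      obtain ⟨p, hp, rfl⟩ := (hmem x).1 hx
      have g1 : F.l (p.1⁻¹ * w * p.2) + F.l (p.2⁻¹ * w * p.1) ≤ 2 * L + a + Ct := s3 p hp
      have g2 := s4 p hp
      show F.l ((μ p)⁻¹ * w * μ p) ≤ L + a / 2 + (Ct + Rt + 1 + 2 * B)
      have z1 : F.l ((p.1)⁻¹ * p.1) = 0 := by rw [inv_mul_cancel, F.l_one]
      have z2 : F.l ((p.2)⁻¹ * p.2) = 0 := by rw [inv_mul_cancel, F.l_one]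
      rcases hμ2 p with e1 | e1
      · rw [e1]
        have g4 := st_tri3 F w p.1 p.1 p.2 p.1
        have g5 := st_tri3 F w p.1 p.2 p.1 p.1
        omega
      · rw [e1]
        have g4 := st_tri3 F w p.2 p.2 p.1 p.2
        have g5 := st_tri3 F w p.2 p.1 p.2 p.2
        omega
  · refine map_on H ?_ hc
    intro σ hσ
    refine on_mono ?_ (hH2 σ)
    intro τ hτ
    obtain ⟨t1, t2⟩ := hτ
    obtain ⟨s1, s2, s3⟩ := hσ
    refine ⟨by rw [t1, s1], ?_, ?_⟩
    · intro x hx y hy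
      obtain ⟨u, hu, hxu⟩ := t2 x hx
      obtain ⟨v, hv, hyv⟩ := t2 y hy
      have g1 := s2 u hu v hv
      have g2 := hφB u
      have g3 := hφB v
      have g4 := st_tri F (φ u) u v
      have g5 := st_tri F u v (φ v)
      have g6 := st_tri F (φ u) v (φ v)
      rcases hxu with rfl | rfl <;> rcases hyv with rfl | rfl <;> omega
    · intro x hx
      obtain ⟨u, hu, hxu⟩ := t2 x hx
      have g1 : F.l (u⁻¹ * w * u) ≤ L := s3 u hu
      have g2 := hφB u
      show F.l (x⁻¹ * w * x) ≤ L + a / 2 + (Ct + Rt + 1 + 2 * B)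
      rcases hxu with rfl | rfl
      · omega
      · have g4 := st_tri3 F w (φ u) u u (φ u)
        omega
  · have e1 : fmap μ (h + fmap Prod.swap h) = 0 := by
      rw [map_add, fmap_fmap]
      have : (fun x : G × G => μ (Prod.swap x)) = μ := by
        funext x
        exact hμsw x
      rw [this]
      exact fadd_self _
    have e2 : fmap μ (fbd (fmap Φ (b (k + 1)))) = fmap φ c := by
      rw [fbd_fmap, hb2, hz, fmap_fmap, fmap_fmap]
      have : (fun x : G => μ (Φ (δ x))) = φ := by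
        funext x
        rcases hμ2 (Φ (δ x)) with h1 | h1 <;> rw [h1]
      rw [this]
    have e3 : fmap μ (fbd ν) = fmap φ c := by
      have h1 := congrArg (fmap μ) hνh
      rw [map_add, e1, add_zero] at h1
      rw [← h1]
      exact e2
    rw [map_add, fbd_fmap, e3, hH1, hc0, map_zero, add_zero, fmap_id]
    have : fmap φ c + (c + fmap φ c) = c + (fmap φ c + fmap φ c) := by abel
    rw [this, fadd_self, add_zero]

end STEP

end Pool.Agent.VSR
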