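import Pool.Agent.VSR.Tau
/-!
# Commutators with finitely many conjugates
-/
namespace Pool.Agent.VSR
open Pool.Agent.VS Pool.Agent.VN

theorem q1_pow {G : Type} [Group G] {a b z : G} (hz : z = a⁻¹ * b⁻¹ * a * b)
    (ha : a * z = z * a) (hb : b * z = z * b) (n m : ℕ) :
    a ^ n * b ^ m = b ^ m * a ^ n * z ^ (n * m) := by
  have h0 : a * b = b * a * z := by rw [hz]; group
  have hza : Commute z a := ha.symm
  have hzb : Commute z b := hb.symm
  have h1 : ∀ m : ℕ, a * b ^ m = b ^ m * a * z ^ m := by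
    intro m
    induction m with
    | zero => simp
    | succ m ih =>
      calc a * b ^ (m + 1) = (a * b ^ m) * b := by rw [pow_succ, mul_assoc]
        _ = b ^ m * a * (z ^ m * b) := by rw [ih, mul_assoc]
        _ = b ^ m * a * (b * z ^ m) := by rw [(hzb.pow_left m).eq]
        _ = b ^ m * (a * b) * z ^ m := by simp only [mul_assoc]
        _ = b ^ m * (b * a * z) * z ^ m := by rw [h0]
        _ = b ^ (m + 1) * a * z ^ (m + 1) := by
          rw [pow_succ b m, pow_succ' z m]; simp only [mul_assoc]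
  induction n with
  | zero => simp
  | succ n ih =>
    calc a ^ (n + 1) * b ^ m = a * (a ^ n * b ^ m) := by rw [pow_succ', mul_assoc]
      _ = (a * b ^ m) * (a ^ n * z ^ (n * m)) := by rw [ih]; simp only [mul_assoc]
      _ = b ^ m * a * (z ^ m * a ^ n) * z ^ (n * m) := by rw [h1]; simp only [mul_assoc]
      _ = b ^ m * a * (a ^ n * z ^ m) * z ^ (n * m) := by
        rw [((hza.pow_left m).pow_right n).eq]
      _ = b ^ m * a ^ (n + 1) * z ^ ((n + 1) * m) := by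
        have : (n + 1) * m = m + n * m := by ring
        rw [this, pow_add z, pow_succ' a n]; simp only [mul_assoc]

variable {G : Type} [Group G]

theorem q1_tau (F : Geo G) {a b z : G} (hz : z = a⁻¹ * b⁻¹ * a * b)
    (ha : a * z = z * a) (hb : b * z = z * b) (m : ℕ) : Tau F (z ^ m) 1 := by
  obtain ⟨κ, hκ⟩ := F.exists_inv
  set E : ℕ := (κ + 1) * (F.l a + F.l b) with hE
  have h1 : ∀ n : ℕ, F.l (z ^ (n * n)) ≤ n * E := by
    intro n
    have h2 : z ^ (n * n) = (a ^ n)⁻¹ * (b ^ n)⁻¹ * (a ^ n * b ^ n) := by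
      rw [q1_pow hz ha hb n n]; group
    have h3 := F.l_mul ((a ^ n)⁻¹ * (b ^ n)⁻¹) (a ^ n * b ^ n)
    have h4 := F.l_mul (a ^ n)⁻¹ (b ^ n)⁻¹
    have h5 := F.l_mul (a ^ n) (b ^ n)
    have h6 := hκ (a ^ n)
    have h7 := hκ (b ^ n)
    have h8 := tau_aux_pow F a n
    have h9 := tau_aux_pow F b n
    have h10 : κ * F.l (a ^ n) ≤ κ * (n * F.l a) := Nat.mul_le_mul_left _ h8
    have h11 : κ * F.l (b ^ n) ≤ κ * (n * F.l b) := Nat.mul_le_mul_left _ h9
    have h12 : n * E = κ * (n * F.l a) + κ * (n * F.l b) + (n * F.l a + n * F.l b) := by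
      rw [hE]; ring
    rw [h2]
    omega
  intro B
  refine ⟨(m * E + B) + (m * E + B), ?_⟩
  set j : ℕ := m * E + B with hj
  have h2 : (z ^ m) ^ 2 ^ (j + j) = (z ^ (2 ^ j * 2 ^ j)) ^ m := by
    rw [← pow_mul, ← pow_mul, pow_add]; congr 1; ring
  have h3 := tau_aux_pow F (z ^ (2 ^ j * 2 ^ j)) m
  have h4 : m * F.l (z ^ (2 ^ j * 2 ^ j)) ≤ m * (2 ^ j * E) := Nat.mul_le_mul_left _ (h1 _)
  have h5 : j < 2 ^ j := Nat.lt_two_pow_self
  have h6 : (m * E + B + 1) * 2 ^ j ≤ 2 ^ j * 2 ^ j := Nat.mul_le_mul_right _ h5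
  have h7 : (m * E + B + 1) * 2 ^ j = m * (2 ^ j * E) + B * 2 ^ j + 2 ^ j := by ring
  have h8 : B * 1 ≤ B * 2 ^ j := Nat.mul_le_mul_left _ Nat.one_le_two_pow
  have h9 : 2 ^ (j + j) * 1 = 2 ^ j * 2 ^ j := by rw [pow_add]; ring
  rw [h2]
  omega

theorem fc_torsion (F : Geo G)
    (hB : ∃ C : ℕ, ∀ (w : G) (L : ℕ), Tau F w L → ∃ x : G, F.l (x⁻¹ * w * x) ≤ L + C)
    (a b z : G) (hz : z = a⁻¹ * b⁻¹ * a * b) (ha : a * z = z * a) (hb : b * z = z * b)
    (hfc : (Set.range (fun g : G => g⁻¹ * z * g)).Finite) : ∃ k : ℕ, 0 < k ∧ z ^ k = 1 := by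
  obtain ⟨C, hC⟩ := hB
  have h1 : ∀ m : ℕ, ∃ x : G, F.l (x⁻¹ * z ^ m * x) ≤ 1 + C := fun m =>
    hC _ _ (q1_tau F hz ha hb m)
  choose x hx using h1
  have hcp : ∀ (g : G) (m : ℕ), g⁻¹ * z ^ m * g = (g⁻¹ * z * g) ^ m := by
    intro g m
    have := conj_pow (i := m) (a := g⁻¹) (b := z)
    rw [inv_inv] at this
    exact this.symm
  have hfin : (Set.range (fun g : G => g⁻¹ * z * g) ×ˢ {g : G | F.l g ≤ 1 + C}).Finite :=
    hfc.prod (F.finite_ball _)
  have hmaps : ∀ m : ℕ, ((x m)⁻¹ * z * x m, ((x m)⁻¹ * z * x m) ^ m) ∈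
      (Set.range (fun g : G => g⁻¹ * z * g) ×ˢ {g : G | F.l g ≤ 1 + C}) := by
    intro m
    refine Set.mk_mem_prod ⟨x m, rfl⟩ ?_
    have := hx m
    rw [hcp] at this
    exact this
  obtain ⟨m, -, m', -, hne, heq⟩ := Set.infinite_univ.exists_ne_map_eq_of_mapsTo
    (f := fun m : ℕ => ((x m)⁻¹ * z * x m, ((x m)⁻¹ * z * x m) ^ m))
    (fun m _ => hmaps m) hfin
  have key : ∀ m m' : ℕ, m < m' →
      ((x m)⁻¹ * z * x m, ((x m)⁻¹ * z * x m) ^ m) =
      ((x m')⁻¹ * z * x m', ((x m')⁻¹ * z * x m') ^ m') → ∃ k : ℕ, 0 < k ∧ z ^ k = 1 := by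
    intro m m' hlt he
    have e1 : (x m)⁻¹ * z * x m = (x m')⁻¹ * z * x m' := congrArg Prod.fst he
    have e2 : ((x m)⁻¹ * z * x m) ^ m = ((x m')⁻¹ * z * x m') ^ m' := congrArg Prod.snd he
    rw [← e1] at e2
    refine ⟨m' - m, Nat.sub_pos_of_lt hlt, ?_⟩
    have e3 : ((x m)⁻¹ * z * x m) ^ (m' - m) = 1 := by
      have h : m' = m + (m' - m) := by omega
      rw [h, pow_add] at e2
      have h2 : ((x m)⁻¹ * z * x m) ^ m * ((x m)⁻¹ * z * x m) ^ (m' - m) =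
          ((x m)⁻¹ * z * x m) ^ m * 1 := by rw [mul_one]; exact e2.symm
      exact mul_left_cancel h2
    rw [← hcp] at e3
    have e4 : z ^ (m' - m) = x m * ((x m)⁻¹ * z ^ (m' - m) * x m) * (x m)⁻¹ := by group
    rw [e4, e3]; group
  rcases lt_or_gt_of_ne hne with h | h
  · exact key m m' h heq
  · exact key m' m h heq.symm

end Pool.Agent.VSR
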