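import Pool.Agent.VSR.Defs
import Pool.Agent.VN.NFBasic
import Pool.Agent.VN.NormalAb
/-!
# Finitely generated abelian normal subgroups
-/
namespace Pool.Agent.VSR
open Pool.Agent.VS Pool.Agent.VN

variable {G : Type} [Group G]

/-- A linear bound for the lengths of the powers gives a bound for the translation number. -/
theorem tau_of_linear (F : Geo G) (w : G) (T c : ℕ) (h : ∀ n : ℕ, F.l (w ^ n) ≤ T * n + c) :
    Tau F w (T + 1) := by
  intro B
  refine ⟨c + B, ?_⟩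
  have h1 := h (2 ^ (c + B))
  have h2 : c + B < 2 ^ (c + B) := Nat.lt_two_pow_self
  have h3 : 2 ^ (c + B) * (T + 1) = T * 2 ^ (c + B) + 2 ^ (c + B) := by ring
  omega

/-- For every `T` there are only finitely many conjugacy classes of elements with translation
number at most `T`. -/
theorem classes_finite (F : Geo G)
    (hB : ∃ C : ℕ, ∀ (w : G) (L : ℕ), Tau F w L → ∃ x : G, F.l (x⁻¹ * w * x) ≤ L + C) (T : ℕ) :
    ∃ S : Set G, S.Finite ∧ ∀ w : G, (∃ c : ℕ, ∀ n : ℕ, F.l (w ^ n) ≤ T * n + c) →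
      ∃ x : G, x⁻¹ * w * x ∈ S := by
  obtain ⟨C, hC⟩ := hB
  refine ⟨{g | F.l g ≤ T + 1 + C}, F.finite_ball _, ?_⟩
  rintro w ⟨c, hw⟩
  exact hC w (T + 1) (tau_of_linear F w T c hw)

theorem abel_normal (F : Geo G)
    (hB : ∃ C : ℕ, ∀ (w : G) (L : ℕ), Tau F w L → ∃ x : G, F.l (x⁻¹ * w * x) ≤ L + C)
    (B : Subgroup G) [B.Normal] (hfg : B.FG) (hc : ∀ a ∈ B, ∀ b ∈ B, a * b = b * a) :
    (Subgroup.centralizer (B : Set G)).FiniteIndex :=
  centralizer_fi_of_normal_ab F.l F.l_one F.l_mul (classes_finite F hB) B hfg hc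

end Pool.Agent.VSR
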