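import Pool.Agent.VSR.Defs
import Pool.Agent.VS.Fin
/-!
# Coarse retracts
-/
namespace Pool.Agent.VSR
open Pool.Agent.VS Pool.Agent.VN

/-- The word length of a group with normal forms. -/
def geoNF {A G : Type} [Group G] {π : A → G} [Finite A] (F : NF A G π) : Geo G where
  l := F.l
  l_one := F.l_one
  l_mul := F.l_mul
  exists_inv := F.exists_inv
  finite_ball := F.finite_ball
  fill_int := VS.int_fill F
  fill_ref := VS.ref_fill F
  fill_tot := VS.tot_fill F

variable {G : Type} [Group G]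

private theorem retr_fmap {N : Subgroup G} {p : G → N} (hp : ∀ n : N, p n = n) (c : FCh N) :
    fmap p (fmap (fun n : N => (n : G)) c) = c := by
  rw [fmap_fmap]
  have : (fun n : N => p (n : G)) = fun n => n := funext hp
  rw [this, fmap_id]

/-- The restriction of the length to a coarse retract. -/
def geoRetract (F : Geo G) (N : Subgroup G) (p : G → N) (C : ℕ) (hp : ∀ n : N, p n = n)
    (hC : ∀ x y : G, F.l ((p x : G)⁻¹ * (p y : G)) ≤ F.l (x⁻¹ * y) + C) : Geo N where
  l := fun n => F.l n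
  l_one := F.l_one
  l_mul := fun g h => F.l_mul g h
  exists_inv := by
    obtain ⟨κ, hκ⟩ := F.exists_inv
    exact ⟨κ, fun g => hκ g⟩
  finite_ball := by
    intro n
    exact (F.finite_ball n).preimage Subtype.val_injective.injOn
  fill_int := by
    classical
    intro M R
    obtain ⟨R', C', h⟩ := F.fill_int M R
    refine ⟨R' + C, C' + 2 * C, ?_⟩
    intro a b L hab k hk c hc hz
    obtain ⟨e, he, hec⟩ := h a b L hab k hk (fmap (fun n : N => (n : G)) c)
      (by
        refine fmap_on _ ?_ hc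
        rintro σ τ ⟨h1, h2, h3⟩ hcard hmem
        refine ⟨hcard.trans h1, ?_, ?_⟩
        · intro x hx y hy
          obtain ⟨x', hx', rfl⟩ := (hmem x).1 hx
          obtain ⟨y', hy', rfl⟩ := (hmem y).1 hy
          exact h2 x' hx' y' hy'
        · intro y hy
          obtain ⟨y', hy', rfl⟩ := (hmem y).1 hy
          exact h3 y' hy') (by rw [fbd_fmap, hz, map_zero])
    refine ⟨fmap p e, ?_, by rw [fbd_fmap, hec, retr_fmap hp]⟩
    refine fmap_on _ ?_ he
    rintro σ τ ⟨h1, h2, h3⟩ hcard hmem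
    refine ⟨hcard.trans h1, ?_, ?_⟩
    · intro x hx y hy
      obtain ⟨x', hx', rfl⟩ := (hmem x).1 hx
      obtain ⟨y', hy', rfl⟩ := (hmem y).1 hy
      have h4 := hC x' y'
      have h5 := h2 x' hx' y' hy'
      exact h4.trans (by omega)
    · intro y hy
      obtain ⟨y', hy', rfl⟩ := (hmem y).1 hy
      have h4 := hC (a : G) y'
      have h5 := hC y' (b : G)
      rw [hp] at h4 h5
      have h6 := h3 y' hy'
      change F.l ((a : G)⁻¹ * (p y' : G)) + F.l ((p y' : G)⁻¹ * (b : G)) ≤ L + (C' + 2 * C)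
      omega
  fill_ref := by
    classical
    intro M R
    obtain ⟨R', h⟩ := F.fill_ref M R
    refine ⟨R' + C, ?_⟩
    intro R''
    obtain ⟨B, hB⟩ := h R''
    refine ⟨B + C, ?_⟩
    intro P k hk e he hbd
    obtain ⟨e', he', hec⟩ := hB (fun x => ∃ n : N, (n : G) = x ∧ P n) k hk
      (fmap (fun n : N => (n : G)) e)
      (by
        refine fmap_on _ ?_ he
        rintro σ τ ⟨h1, h2, h3⟩ hcard hmem
        refine ⟨hcard.trans h1, ?_, ?_⟩
        · intro x hx y hy
          obtain ⟨x', hx', rfl⟩ := (hmem x).1 hx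
          obtain ⟨y', hy', rfl⟩ := (hmem y).1 hy
          exact h2 x' hx' y' hy'
        · intro y hy
          obtain ⟨y', hy', rfl⟩ := (hmem y).1 hy
          exact ⟨y', rfl, h3 y' hy'⟩)
      (by
        rw [fbd_fmap]
        refine fmap_on _ ?_ hbd
        rintro σ τ h2 hcard hmem
        intro x hx y hy
        obtain ⟨x', hx', rfl⟩ := (hmem x).1 hx
        obtain ⟨y', hy', rfl⟩ := (hmem y).1 hy
        exact h2 x' hx' y' hy')
    refine ⟨fmap p e', ?_, by rw [fbd_fmap, hec, fbd_fmap, retr_fmap hp]⟩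
    refine fmap_on _ ?_ he'
    rintro σ τ ⟨h1, h2, h3⟩ hcard hmem
    refine ⟨hcard.trans h1, ?_, ?_⟩
    · intro x hx y hy
      obtain ⟨x', hx', rfl⟩ := (hmem x).1 hx
      obtain ⟨y', hy', rfl⟩ := (hmem y).1 hy
      have h4 := hC x' y'
      have h5 := h2 x' hx' y' hy'
      exact h4.trans (by omega)
    · intro y hy
      obtain ⟨y', hy', rfl⟩ := (hmem y).1 hy
      obtain ⟨x, ⟨n, rfl, hn⟩, h4, h5⟩ := h3 y' hy'
      have h6 := hC (n : G) y'
      have h7 := hC y' (n : G)
      rw [hp] at h6 h7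
      refine ⟨n, hn, ?_, ?_⟩
      · exact h6.trans (by omega)
      · exact h7.trans (by omega)
  fill_tot := by
    classical
    intro M R
    obtain ⟨R', h⟩ := F.fill_tot M R
    refine ⟨R' + C, ?_⟩
    intro k hk c hc hz
    obtain ⟨e, he, hec⟩ := h k hk (fmap (fun n : N => (n : G)) c)
      (by
        refine fmap_on _ ?_ hc
        rintro σ τ ⟨h1, h2⟩ hcard hmem
        refine ⟨hcard.trans h1, ?_⟩
        intro x hx y hy
        obtain ⟨x', hx', rfl⟩ := (hmem x).1 hx
        obtain ⟨y', hy', rfl⟩ := (hmem y).1 hy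
        exact h2 x' hx' y' hy') (by rw [fbd_fmap, hz, map_zero])
    refine ⟨fmap p e, ?_, by rw [fbd_fmap, hec, retr_fmap hp]⟩
    refine fmap_on _ ?_ he
    rintro σ τ ⟨h1, h2⟩ hcard hmem
    refine ⟨hcard.trans h1, ?_⟩
    intro x hx y hy
    obtain ⟨x', hx', rfl⟩ := (hmem x).1 hx
    obtain ⟨y', hy', rfl⟩ := (hmem y).1 hy
    have h4 := hC x' y'
    have h5 := h2 x' hx' y' hy'
    exact h4.trans (by omega)

end Pool.Agent.VSR
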